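import Pool.Agent.Lib.UCX.Gdef

/-!
# Unary composites: the leftmost derivations of a word
-/

set_option autoImplicit false

namespace Pool.Agent.Lib.UCZ

open Pool.Agent.Lib.UCX

/-- the leftmost derivations of `0^n`, as lists of productions -/
def Ders (G : Grammar) (n : ℕ) : Set (List (Prd G)) := {l | Run G l [some (G.start, [])] n}

end Pool.Agent.Lib.UCZ
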