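import Mathlib

/-!
# Numbers without small prime factors have small density
-/

set_option autoImplicit false

namespace Pool.Agent.Lib.UCZ

open Finset

/-- the primes below `K` -/
def pr (K : ℕ) : Finset ℕ := (range K).filter Nat.Prime

/-- their product -/
def pm (K : ℕ) : ℕ := ∏ p ∈ pr K, p

theorem pm_pos (K : ℕ) : 0 < pm K := Finset.prod_pos fun p hp => (mem_filter.1 hp).2.pos

theorem tot_pm (K : ℕ) : ((pm K).totient : ℝ) = pm K * ∏ p ∈ pr K, (1 - 1 / (p : ℝ)) := by
  have h := Nat.totient_eq_mul_prod_factors (pm K)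
  have h1 : (pm K).primeFactors = pr K := Nat.primeFactors_prod fun p hp => (mem_filter.1 hp).2
  rw [h1] at h
  have h2 := congrArg (fun q : ℚ => (q : ℝ)) h
  push_cast at h2
  rw [h2]
  congr 1
  refine Finset.prod_congr rfl fun p _ => ?_
  rw [one_div]

theorem sum_top : Filter.Tendsto (fun K => ∑ p ∈ pr K, (1 / (p : ℝ))) Filter.atTop Filter.atTop := by
  have h := (not_summable_iff_tendsto_nat_atTop_of_nonneg (f := Set.indicator {p : ℕ | p.Prime} (fun n : ℕ => (1 : ℝ) / n))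
    (fun n => Set.indicator_nonneg (fun _ _ => by positivity) n)).1 not_summable_one_div_on_primes
  refine h.congr fun K => ?_
  rw [pr, Finset.sum_filter]
  refine Finset.sum_congr rfl fun p _ => ?_
  rw [Set.indicator_apply]
  rfl

theorem prod_small (δ : ℝ) (hδ : 0 < δ) : ∃ K : ℕ, ∀ K' ≥ K, ∏ p ∈ pr K', (1 - 1 / (p : ℝ)) ≤ δ := by
  obtain ⟨K, hK⟩ := Filter.eventually_atTop.1 (sum_top.eventually_ge_atTop (-Real.log δ))
  refine ⟨K, fun K' hK' => ?_⟩
  have h1 : ∏ p ∈ pr K', (1 - 1 / (p : ℝ)) ≤ ∏ p ∈ pr K', Real.exp (-(1 / (p : ℝ))) := by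
    refine Finset.prod_le_prod (fun p hp => ?_) fun p _ => Real.one_sub_le_exp_neg _
    have h2 : 1 ≤ (p : ℝ) := by exact_mod_cast (mem_filter.1 hp).2.one_le
    have h3 : 1 / (p : ℝ) ≤ 1 := by
      rw [div_le_one (by linarith)]
      exact h2
    linarith
  refine h1.trans ?_
  rw [← Real.exp_sum, Finset.sum_neg_distrib]
  calc Real.exp (-∑ p ∈ pr K', (1 / (p : ℝ))) ≤ Real.exp (Real.log δ) := by
        refine Real.exp_le_exp.2 ?_
        have := hK K' hK'
        linarith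
    _ = δ := Real.exp_log hδ

/-- for large `K` the numbers coprime to the product of the primes below `K` have small density -/
theorem dens (ε : ℝ) (hε : 0 < ε) : ∃ K₀ : ℕ, ∀ K ≥ K₀, ∃ x₀ : ℕ, ∀ x ≥ x₀,
    ((((range x).filter fun n => n.Coprime (pm K)).card : ℕ) : ℝ) ≤ ε * x := by
  obtain ⟨K₀, hK⟩ := prod_small (ε / 2) (by linarith)
  refine ⟨K₀, fun K hKK => ⟨⌈2 * ((pm K).totient : ℝ) / ε⌉₊, fun x hx => ?_⟩⟩
  have h1 := Nat.Ico_filter_coprime_le (a := pm K) 0 x (pm_pos K).ne'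
  rw [Nat.zero_add, ← Finset.range_eq_Ico] at h1
  have h2 : ((range x).filter fun n => n.Coprime (pm K)) = ((range x).filter fun n => (pm K).Coprime n) :=
    Finset.filter_congr fun n _ => Nat.coprime_comm
  rw [h2]
  have hM : (0 : ℝ) < pm K := by exact_mod_cast pm_pos K
  have h3 : ((((range x).filter fun n => (pm K).Coprime n).card : ℕ) : ℝ) ≤ (pm K).totient * ((x / pm K : ℕ) + 1) := by
    exact_mod_cast h1
  have h4 : (((x / pm K : ℕ)) : ℝ) ≤ x / pm K := Nat.cast_div_le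
  have h5 : ((pm K).totient : ℝ) ≤ pm K * (ε / 2) := by
    rw [tot_pm]
    exact mul_le_mul_of_nonneg_left (hK K hKK) hM.le
  have h6 : ((pm K).totient : ℝ) ≤ ε / 2 * x := by
    have h7 : 2 * ((pm K).totient : ℝ) / ε ≤ x := (Nat.le_ceil _).trans (by exact_mod_cast hx)
    rw [div_le_iff₀ hε] at h7
    linarith
  have h8 : ((pm K).totient : ℝ) * (x / pm K) ≤ ε / 2 * x := by
    rw [mul_div_assoc', div_le_iff₀ hM]
    have hx0 : (0 : ℝ) ≤ x := Nat.cast_nonneg x
    nlinarith [mul_le_mul_of_nonneg_right h5 hx0]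
  have h9 : (0 : ℝ) ≤ (pm K).totient := Nat.cast_nonneg _
  calc ((((range x).filter fun n => (pm K).Coprime n).card : ℕ) : ℝ) ≤ (pm K).totient * ((x / pm K : ℕ) + 1) := h3
    _ ≤ (pm K).totient * (x / pm K + 1) := mul_le_mul_of_nonneg_left (by linarith) h9
    _ = (pm K).totient * (x / pm K) + (pm K).totient := by ring
    _ ≤ ε * x := by linarith

end Pool.Agent.Lib.UCZ
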