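import Pool.Agent.Lib.UCZ.Top
import Pool.Agent.Lib.UCZ.Dens
import Pool.Agent.Lib.UCZ.Ddef

/-!
# Unary composites: grammars with few ambiguous words, the theorem
-/

set_option autoImplicit false

namespace Pool.Agent.Lib.UCZ

open Pool.Agent.Lib.UCX

/-- the divisors `d` of `n` with `1 < d ≤ √n` -/
def sdiv (n : ℕ) : Finset ℕ := n.divisors.filter fun d => 1 < d ∧ d * d ≤ n

theorem sdiv_pos {n : ℕ} (h : Composite n) : 1 ≤ (sdiv n).card := by
  obtain ⟨h1, h2⟩ := h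
  obtain ⟨a, ha, h3, h4⟩ := (Nat.not_prime_iff_exists_dvd_lt h1).1 h2
  obtain ⟨b, rfl⟩ := ha
  have hb : 2 ≤ b := by
    rcases Nat.lt_or_ge b 2 with h | h
    · interval_cases b <;> omega
    · exact h
  refine Finset.card_pos.2 ?_
  rcases Nat.le_total a b with h | h
  · refine ⟨a, Finset.mem_filter.2 ⟨Nat.mem_divisors.2 ⟨dvd_mul_right _ _, by omega⟩, by omega, Nat.mul_le_mul_left _ h⟩⟩
  · refine ⟨b, Finset.mem_filter.2 ⟨Nat.mem_divisors.2 ⟨dvd_mul_left _ _, by omega⟩, by omega, Nat.mul_le_mul_right _ h⟩⟩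

variable {M : ℕ} [NeZero M]

theorem ders_le (n : ℕ) : (Ders (GM M) n).encard ≤ ((sdiv n).card : ℕ∞) := by
  obtain ⟨F, hF⟩ := run_pairs (M := M)
  by_cases hg : 1 < Nat.gcd n M
  · rcases Set.eq_empty_or_nonempty (Ders (GM M) n) with h | ⟨l, hl⟩
    · rw [h, Set.encard_empty]
      exact bot_le
    · have h1 : n ∈ Lang (GM M) := ⟨l, hl⟩
      rw [lang_GM] at h1
      have h2 : (Ders (GM M) n).encard ≤ 1 := by
        rw [Set.encard_le_one_iff]
        intro a b ha hb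
        exact one_GM (Or.inl hg) ha hb
      exact h2.trans (by exact_mod_cast sdiv_pos h1)
  · have h1 : Ders (GM M) n ⊆ (fun d : ℕ =>
        Prd.push (G := GM M) Vr.S (Vr.T 2) Ix.e :: F (d - 2) (n / d - d)) '' (sdiv n : Set ℕ) := by
      intro l hl
      rcases run_S.1 hl with ⟨_, _, h3, _⟩ | ⟨l', rfl, h2⟩ | ⟨l', rfl, h2⟩
      · exact absurd h3 hg
      · obtain ⟨t, k, _, _, hk3, rfl, _⟩ := (run_R _ _ _).1 h2
        refine absurd ?_ hg
        rw [gcd_class]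
        exact hk3
      · obtain ⟨i, j, _, _, rfl, rfl⟩ := (hF _ _).1 h2
        refine ⟨i + 2, Finset.mem_coe.2 (Finset.mem_filter.2 ⟨Nat.mem_divisors.2 ⟨dvd_mul_right _ _, ?_⟩,
          by omega, Nat.mul_le_mul_left _ (by omega)⟩), ?_⟩
        · exact (Nat.mul_pos (by omega) (by omega)).ne'
        · have e1 : i + 2 - 2 = i := by omega
          have e2 : (i + 2) * (i + 2 + j) / (i + 2) - (i + 2) = j := by
            rw [Nat.mul_div_cancel_left _ (by omega)]
            omega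
          show Prd.push (G := GM M) Vr.S (Vr.T 2) Ix.e :: F (i + 2 - 2) ((i + 2) * (i + 2 + j) / (i + 2) - (i + 2)) = _
          rw [e1, e2]
    refine (Set.encard_le_encard h1).trans ((Set.encard_image_le _ _).trans ?_)
    rw [Set.encard_coe_eq_coe_finsetCard]

theorem sdiv_pq {p q : ℕ} (hp : p.Prime) (hq : q.Prime) : (sdiv (p * q)).card ≤ 1 := by
  have key : ∀ a ∈ sdiv (p * q), (a = p ∨ a = q) ∧ a * a ≤ p * q := by
    intro a ha
    obtain ⟨h1, h2, h3⟩ := Finset.mem_filter.1 ha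
    obtain ⟨y, z, hy, hz, rfl⟩ := (Nat.dvd_mul).1 (Nat.mem_divisors.1 h1).1
    refine ⟨?_, h3⟩
    rcases (Nat.dvd_prime hp).1 hy with rfl | rfl
    · rcases (Nat.dvd_prime hq).1 hz with rfl | rfl
      · omega
      · right
        rw [Nat.one_mul]
    · rcases (Nat.dvd_prime hq).1 hz with rfl | rfl
      · left
        rw [Nat.mul_one]
      · nlinarith
  refine Finset.card_le_one.2 fun a ha b hb => ?_
  obtain ⟨ha1, ha2⟩ := key a ha
  obtain ⟨hb1, hb2⟩ := key b hb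
  have hp0 := hp.pos
  have hq0 := hq.pos
  rcases ha1 with rfl | rfl <;> rcases hb1 with rfl | rfl
  · rfl
  · exact Nat.le_antisymm (Nat.le_of_mul_le_mul_left ha2 hp0) (Nat.le_of_mul_le_mul_right hb2 hq0)
  · exact Nat.le_antisymm (Nat.le_of_mul_le_mul_right ha2 hq0) (Nat.le_of_mul_le_mul_left hb2 hp0)
  · rfl

theorem sdiv_cube {p : ℕ} (hp : p.Prime) : (sdiv (p ^ 3)).card ≤ 1 := by
  have key : ∀ a ∈ sdiv (p ^ 3), a = p := by
    intro a ha
    obtain ⟨h1, h2, h3⟩ := Finset.mem_filter.1 ha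
    obtain ⟨i, hi, rfl⟩ := (Nat.dvd_prime_pow hp).1 (Nat.mem_divisors.1 h1).1
    rw [← pow_add, Nat.pow_le_pow_iff_right hp.one_lt] at h3
    have hi1 : i ≠ 0 := by
      rintro rfl
      rw [pow_zero] at h2
      omega
    have hi2 : i = 1 := by omega
    rw [hi2, pow_one]
  exact Finset.card_le_one.2 fun a ha b hb => (key a ha).trans (key b hb).symm

theorem comp_mul {a b : ℕ} (ha : 2 ≤ a) (hb : 2 ≤ b) : Composite (a * b) :=
  ⟨by nlinarith, Nat.not_prime_mul (by omega) (by omega)⟩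

theorem one_of_le {G : Grammar} {n : ℕ} (hL : Lang G = {n | Composite n}) (hn : Composite n)
    (h : (Ders G n).encard ≤ ((sdiv n).card : ℕ∞)) (h1 : (sdiv n).card ≤ 1) : (Ders G n).encard = 1 := by
  have h2 : n ∈ Lang G := by
    rw [hL]
    exact hn
  have h3 : (Ders G n).Nonempty := h2
  refine le_antisymm (h.trans (by exact_mod_cast h1)) (Set.one_le_encard_iff_nonempty.2 h3)

theorem few_main (K : ℕ) (ε : ℝ) (hε : 0 < ε) : ∃ G : Grammar, Lang G = {n | Composite n} ∧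
    (∀ n p : ℕ, Composite n → p.Prime → p ≤ K → p ∣ n → (Ders G n).encard = 1) ∧
    (∀ n : ℕ, (Ders G n).encard ≤ ((n.divisors.filter fun d => 1 < d ∧ d * d ≤ n).card : ℕ∞)) ∧
    (∀ p q : ℕ, p.Prime → q.Prime → (Ders G (p * q)).encard = 1) ∧
    (∀ p : ℕ, p.Prime → (Ders G (p ^ 3)).encard = 1) ∧
    ∃ x₀ : ℕ, ∀ x ≥ x₀, (({n : ℕ | n < x ∧ Composite n ∧ (Ders G n).encard ≠ 1}.ncard : ℕ) : ℝ) ≤ ε * x := by
  obtain ⟨K₀, hK⟩ := dens ε hε
  set K' := max (K + 1) K₀ with hK'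
  have : NeZero (pm K') := ⟨(pm_pos K').ne'⟩
  have hone : ∀ n, Composite n → 1 < Nat.gcd n (pm K') → (Ders (GM (pm K')) n).encard = 1 := by
    intro n hc hg
    have h1 : n ∈ Lang (GM (pm K')) := by
      rw [lang_GM]
      exact hc
    obtain ⟨l, hl⟩ := h1
    rw [Set.encard_eq_one]
    refine ⟨l, Set.eq_singleton_iff_unique_mem.2 ⟨hl, fun l' hl' => one_GM (Or.inl hg) hl' hl⟩⟩
  refine ⟨GM (pm K'), lang_GM, ?_, ders_le, fun p q hp hq => one_of_le lang_GM (comp_mul hp.two_le hq.two_le)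
    (ders_le _) (sdiv_pq hp hq), fun p hp => one_of_le lang_GM ?_ (ders_le _) (sdiv_cube hp), ?_⟩
  · intro n p hc hp hpK hpn
    refine hone n hc ?_
    have h2 : p ∣ pm K' := by
      refine Finset.dvd_prod_of_mem (fun p => p) (Finset.mem_filter.2 ⟨Finset.mem_range.2 ?_, hp⟩)
      have := le_max_left (K + 1) K₀
      omega
    have h3 : p ∣ Nat.gcd n (pm K') := Nat.dvd_gcd hpn h2
    have h4 : 0 < Nat.gcd n (pm K') := Nat.gcd_pos_of_pos_right _ (pm_pos K')
    exact hp.one_lt.trans_le (Nat.le_of_dvd h4 h3)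
  · have h2 : p ^ 3 = p * (p * p) := by ring
    rw [h2]
    have h3 := hp.two_le
    exact comp_mul h3 (by nlinarith)
  · obtain ⟨x₀, hx₀⟩ := hK K' (le_max_right _ _)
    refine ⟨x₀, fun x hx => le_trans ?_ (hx₀ x hx)⟩
    have h1 : {n : ℕ | n < x ∧ Composite n ∧ (Ders (GM (pm K')) n).encard ≠ 1} ⊆
        (((Finset.range x).filter fun n => n.Coprime (pm K') : Finset ℕ) : Set ℕ) := by
      rintro n ⟨h2, h3, h4⟩
      refine Finset.mem_coe.2 (Finset.mem_filter.2 ⟨Finset.mem_range.2 h2, ?_⟩)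
      by_contra h5
      refine h4 (hone n h3 ?_)
      have h6 : 0 < Nat.gcd n (pm K') := Nat.gcd_pos_of_pos_right _ (pm_pos K')
      have h7 : Nat.gcd n (pm K') ≠ 1 := h5
      omega
    have h2 := Set.ncard_le_ncard h1 (Finset.finite_toSet _)
    rw [Set.ncard_coe_finset] at h2
    exact_mod_cast h2

end Pool.Agent.Lib.UCZ
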