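import Pool.Agent.Lib.UCZ.Gram

/-!
# Unary composites: deterministic evaluation of the stacks
-/

set_option autoImplicit false

namespace Pool.Agent.Lib.UCZ

open Pool.Agent.Lib.UCX

/-- The form `α` is evaluated by exactly one list of productions, with the value `v`. -/
def Det (G : Grammar) (α : List (Item G)) (v : ℕ) : Prop :=
  ∃ L : List (Prd G), ∀ (l : List (Prd G)) (w : List (Item G)) (n : ℕ),
    Run G l (α ++ w) n ↔ ∃ l' m, l = L ++ l' ∧ n = v + m ∧ Run G l' w m

theorem det_nil {G : Grammar} : Det G [] 0 := by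
  refine ⟨[], fun l w n => ?_⟩
  constructor
  · intro h
    exact ⟨l, n, rfl, by omega, h⟩
  · rintro ⟨l', m, rfl, rfl, h⟩
    rw [Nat.zero_add]
    exact h

theorem run_none {G : Grammar} {l : List (Prd G)} {w : List (Item G)} {n : ℕ} :
    Run G l (none :: w) n ↔ ∃ m, n = m + 1 ∧ Run G l w m := by
  constructor
  · intro h
    cases h with
    | zero h => exact ⟨_, rfl, h⟩
  · rintro ⟨m, rfl, h⟩
    exact Run.zero h

theorem run_nil {G : Grammar} {l : List (Prd G)} {n : ℕ} : Run G l [] n ↔ l = [] ∧ n = 0 := by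
  constructor
  · intro h
    cases h
    exact ⟨rfl, rfl⟩
  · rintro ⟨rfl, rfl⟩
    exact Run.nil

theorem det_none {G : Grammar} {α : List (Item G)} {v : ℕ} (h : Det G α v) : Det G (none :: α) (v + 1) := by
  obtain ⟨L, hL⟩ := h
  refine ⟨L, fun l w n => ?_⟩
  rw [List.cons_append, run_none]
  constructor
  · rintro ⟨m, rfl, h⟩
    obtain ⟨l', m', rfl, rfl, h'⟩ := (hL _ _ _).1 h
    exact ⟨l', m', rfl, by omega, h'⟩
  · rintro ⟨l', m, rfl, rfl, h⟩
    exact ⟨v + m, by omega, (hL _ _ _).2 ⟨l', m, rfl, rfl, h⟩⟩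

theorem det_append {G : Grammar} {α β : List (Item G)} {v v' : ℕ} (h : Det G α v) (h' : Det G β v') :
    Det G (α ++ β) (v + v') := by
  obtain ⟨L, hL⟩ := h
  obtain ⟨L', hL'⟩ := h'
  refine ⟨L ++ L', fun l w n => ?_⟩
  rw [List.append_assoc]
  constructor
  · intro h
    obtain ⟨l', m, rfl, rfl, h1⟩ := (hL _ _ _).1 h
    obtain ⟨l'', m', rfl, rfl, h2⟩ := (hL' _ _ _).1 h1
    exact ⟨l'', m', by simp, by omega, h2⟩
  · rintro ⟨l', m, rfl, rfl, h⟩
    refine (hL _ _ _).2 ⟨L' ++ l', v' + m, by simp, by omega, (hL' _ _ _).2 ⟨l', m, rfl, rfl, h⟩⟩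

variable {M : ℕ} [NeZero M]

/-- a pop with exactly one possible production -/
theorem det_pop {A : Vr M} {x : Ix} {α : List (Sym (Vr M))} {σ : List Ix} {v : ℕ} (hA : Ox M A x α)
    (hu : ∀ α', Ox M A x α' → α' = α) (hc : ∀ α', ¬ Cx M A α') (hp : ∀ B y, ¬ Px M A B y)
    (h : Det (GM M) (inst (G := GM M) σ α) v) : Det (GM M) [some (A, x :: σ)] v := by
  obtain ⟨L, hL⟩ := h
  refine ⟨Prd.pop (G := GM M) A x α :: L, fun l w n => ?_⟩
  constructor
  · intro h
    cases h with
    | ctx hm _ => exact absurd hm (hc _)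
    | push hm _ => exact absurd hm (hp _ _)
    | pop hm h =>
      obtain rfl := hu _ hm
      obtain ⟨l', m, rfl, rfl, h'⟩ := (hL _ _ _).1 h
      exact ⟨l', m, rfl, rfl, h'⟩
  · rintro ⟨l', m, rfl, rfl, h⟩
    exact Run.pop (G := GM M) hA ((hL _ _ _).2 ⟨l', m, rfl, rfl, h⟩)

theorem no_cx_B (α : List (Sym (Vr M))) : ¬ Cx M Vr.B α := by
  intro h
  cases h

theorem no_cx_Q (α : List (Sym (Vr M))) : ¬ Cx M Vr.Q α := by
  intro h
  cases h

theorem no_px_B (B : Vr M) (y : Ix) : ¬ Px M Vr.B B y := by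
  intro h
  cases h

theorem no_px_Q (B : Vr M) (y : Ix) : ¬ Px M Vr.Q B y := by
  intro h
  cases h

/-- the stack `f^i e` -/
def Fs (i : ℕ) : List Ix := List.replicate i Ix.f ++ [Ix.e]

/-- the stack `h^j f^i e` -/
def Hs (j i : ℕ) : List Ix := List.replicate j Ix.h ++ Fs i

/-- the item `B` with a stack -/
def Bi (M : ℕ) [NeZero M] (σ : List Ix) : Item (GM M) := some (Vr.B, σ)

/-- the item `Q` with a stack -/
def Qi (M : ℕ) [NeZero M] (σ : List Ix) : Item (GM M) := some (Vr.Q, σ)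

theorem det_Bf (i : ℕ) : Det (GM M) [Bi M (Fs i)] (i + 2) := by
  induction i with
  | zero =>
    refine det_pop (x := Ix.e) (σ := []) Ox.be ?_ no_cx_B no_px_B ?_
    · intro α' h
      cases h
      rfl
    · exact det_none (det_none det_nil)
  | succ i ih =>
    refine det_pop (x := Ix.f) (σ := Fs i) Ox.bf ?_ no_cx_B no_px_B ?_
    · intro α' h
      cases h
      rfl
    · exact det_none ih

theorem det_Bh (j i : ℕ) : Det (GM M) [Bi M (Hs j i)] (i + 2) := by
  induction j with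
  | zero => exact det_Bf i
  | succ j ih =>
    refine det_pop (x := Ix.h) (σ := Hs j i) Ox.bh ?_ no_cx_B no_px_B ?_
    · intro α' h
      cases h
      rfl
    · exact ih

theorem det_Qf (i : ℕ) : Det (GM M) [Qi M (Fs i)] ((i + 2) * (i + 2)) := by
  induction i with
  | zero =>
    refine det_pop (x := Ix.e) (σ := []) Ox.qe ?_ no_cx_Q no_px_Q ?_
    · intro α' h
      cases h
      rfl
    · exact det_none (det_none (det_none (det_none det_nil)))
  | succ i ih =>
    refine det_pop (x := Ix.f) (σ := Fs i) Ox.qf ?_ no_cx_Q no_px_Q ?_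
    · intro α' h
      cases h
      rfl
    · have h1 := det_none (det_append (det_Bf (M := M) i) (det_append (det_Bf (M := M) i) ih))
      have h2 : (i + 1 + 2) * (i + 1 + 2) = i + 2 + (i + 2 + (i + 2) * (i + 2)) + 1 := by ring
      rw [h2]
      exact h1

theorem det_Qh (j i : ℕ) : Det (GM M) [Qi M (Hs j i)] ((i + 2) * (i + 2 + j)) := by
  induction j with
  | zero => exact det_Qf i
  | succ j ih =>
    refine det_pop (x := Ix.h) (σ := Hs j i) Ox.qh ?_ no_cx_Q no_px_Q ?_
    · intro α' h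
      cases h
      rfl
    · have h1 := det_append (det_Bh (M := M) j i) ih
      have h2 : (i + 2) * (i + 2 + (j + 1)) = i + 2 + (i + 2) * (i + 2 + j) := by ring
      rw [h2]
      exact h1

/-- exactly one list of productions evaluates `Q` with the stack `h^j f^i e` -/
theorem run_Q (j i : ℕ) : ∃ L : List (Prd (GM M)), ∀ (l : List (Prd (GM M))) (n : ℕ),
    Run (GM M) l [Qi M (Hs j i)] n ↔ l = L ∧ n = (i + 2) * (i + 2 + j) := by
  obtain ⟨L, hL⟩ := det_Qh (M := M) j i
  refine ⟨L, fun l n => ?_⟩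
  have h := hL l [] n
  rw [List.append_nil] at h
  rw [h]
  constructor
  · rintro ⟨l', m, rfl, rfl, h'⟩
    obtain ⟨rfl, rfl⟩ := run_nil.1 h'
    exact ⟨List.append_nil _, rfl⟩
  · rintro ⟨rfl, rfl⟩
    exact ⟨[], 0, (List.append_nil _).symm, rfl, Run.nil⟩

end Pool.Agent.Lib.UCZ
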