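import Pool.Agent.Lib.UCX.Gdef

/-!
# Unary composites: the grammars with few ambiguous words
-/

set_option autoImplicit false

namespace Pool.Agent.Lib.UCZ

open Pool.Agent.Lib.UCX

/-- variables -/
inductive Vr (M : ℕ) : Type where
  | S | R | B | Q
  | T (i : ZMod M)
  | U (i : ZMod M)

/-- index symbols -/
inductive Ix : Type where
  | e | f | h
  deriving Fintype

/-- productions `A → α` -/
inductive Cx (M : ℕ) : Vr M → List (Sym (Vr M)) → Prop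
  | small (k : ℕ) : k ≤ M → Composite k → 1 < Nat.gcd k M → Cx M Vr.S (List.replicate k Sym.zero)
  | sr : Cx M Vr.S [Sym.var Vr.R]
  | rr : Cx M Vr.R (List.replicate M Sym.zero ++ [Sym.var Vr.R])
  | rk (k : ℕ) : M < k → k ≤ 2 * M → 1 < Nat.gcd k M → Cx M Vr.R (List.replicate k Sym.zero)
  | tu (i : ZMod M) : IsUnit i → Cx M (Vr.T i) [Sym.var (Vr.U i)]
  | uq (i : ZMod M) : IsUnit i → Cx M (Vr.U i) [Sym.var Vr.Q]

/-- productions `A → B_f` -/
inductive Px (M : ℕ) : Vr M → Vr M → Ix → Prop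
  | st : Px M Vr.S (Vr.T 2) Ix.e
  | tt (i : ZMod M) : Px M (Vr.T i) (Vr.T (i + 1)) Ix.f
  | uu (i : ZMod M) : Px M (Vr.U i) (Vr.U (i + 1)) Ix.h

/-- productions `A_f → α` -/
inductive Ox (M : ℕ) : Vr M → Ix → List (Sym (Vr M)) → Prop
  | be : Ox M Vr.B Ix.e [Sym.zero, Sym.zero]
  | bf : Ox M Vr.B Ix.f [Sym.zero, Sym.var Vr.B]
  | bh : Ox M Vr.B Ix.h [Sym.var Vr.B]
  | qe : Ox M Vr.Q Ix.e [Sym.zero, Sym.zero, Sym.zero, Sym.zero]
  | qf : Ox M Vr.Q Ix.f [Sym.zero, Sym.var Vr.B, Sym.var Vr.B, Sym.var Vr.Q]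
  | qh : Ox M Vr.Q Ix.h [Sym.var Vr.B, Sym.var Vr.Q]

theorem finite_vr (M : ℕ) [NeZero M] : Finite (Vr M) := by
  let g : Fin 4 ⊕ (ZMod M ⊕ ZMod M) → Vr M := fun x => match x with
    | Sum.inl 0 => Vr.S
    | Sum.inl 1 => Vr.R
    | Sum.inl 2 => Vr.B
    | Sum.inl 3 => Vr.Q
    | Sum.inr (Sum.inl i) => Vr.T i
    | Sum.inr (Sum.inr i) => Vr.U i
  refine Finite.of_surjective g ?_
  intro v
  cases v with
  | S => exact ⟨Sum.inl 0, rfl⟩
  | R => exact ⟨Sum.inl 1, rfl⟩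
  | B => exact ⟨Sum.inl 2, rfl⟩
  | Q => exact ⟨Sum.inl 3, rfl⟩
  | T i => exact ⟨Sum.inr (Sum.inl i), rfl⟩
  | U i => exact ⟨Sum.inr (Sum.inr i), rfl⟩

theorem finite_cx (M : ℕ) [NeZero M] : {x : Vr M × List (Sym (Vr M)) | Cx M x.1 x.2}.Finite := by
  have h1 : ((fun k : ℕ => ((Vr.S : Vr M), List.replicate k (Sym.zero : Sym (Vr M)))) '' Set.Iic M).Finite :=
    (Set.finite_Iic M).image _
  have h2 : ((fun k : ℕ => ((Vr.R : Vr M), List.replicate k (Sym.zero : Sym (Vr M)))) '' Set.Iic (2 * M)).Finite :=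
    (Set.finite_Iic (2 * M)).image _
  have h3 : (Set.range fun i : ZMod M => ((Vr.T i : Vr M), [Sym.var (Vr.U i)])).Finite := Set.finite_range _
  have h4 : (Set.range fun i : ZMod M => ((Vr.U i : Vr M), [Sym.var (Vr.Q : Vr M)])).Finite := Set.finite_range _
  have h5 : ({((Vr.S : Vr M), [Sym.var (Vr.R : Vr M)]), (Vr.R, List.replicate M Sym.zero ++ [Sym.var Vr.R])} :
      Set (Vr M × List (Sym (Vr M)))).Finite := Set.toFinite _
  refine ((((h1.union h2).union h3).union h4).union h5).subset ?_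
  rintro ⟨A, α⟩ h
  change Cx M A α at h
  cases h with
  | small k hk _ _ => exact Or.inl (Or.inl (Or.inl (Or.inl ⟨k, hk, rfl⟩)))
  | sr => exact Or.inr (Or.inl rfl)
  | rr => exact Or.inr (Or.inr rfl)
  | rk k _ hk _ => exact Or.inl (Or.inl (Or.inl (Or.inr ⟨k, hk, rfl⟩)))
  | tu i _ => exact Or.inl (Or.inl (Or.inr ⟨i, rfl⟩))
  | uq i _ => exact Or.inl (Or.inr ⟨i, rfl⟩)

/-- The grammar `G_M`. -/
def GM (M : ℕ) [NeZero M] : Grammar where
  V := Vr M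
  I := Ix
  finV := finite_vr M
  finI := inferInstance
  start := Vr.S
  ctx := {x | Cx M x.1 x.2}
  push := {x | Px M x.1 x.2.1 x.2.2}
  pop := {x | Ox M x.1 x.2.1 x.2.2}
  finCtx := finite_cx M
  finPush := by
    have := finite_vr M
    exact Set.toFinite _
  finPop := by
    have h5 : ({(Vr.B, Ix.e, [Sym.zero, Sym.zero]), (Vr.B, Ix.f, [Sym.zero, Sym.var Vr.B]), (Vr.B, Ix.h, [Sym.var Vr.B]),
        (Vr.Q, Ix.e, [Sym.zero, Sym.zero, Sym.zero, Sym.zero]),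
        (Vr.Q, Ix.f, [Sym.zero, Sym.var Vr.B, Sym.var Vr.B, Sym.var Vr.Q]),
        (Vr.Q, Ix.h, [Sym.var Vr.B, Sym.var Vr.Q])} : Set (Vr M × Ix × List (Sym (Vr M)))).Finite := Set.toFinite _
    refine h5.subset ?_
    rintro ⟨A, x, α⟩ h
    change Ox M A x α at h
    cases h <;> simp

end Pool.Agent.Lib.UCZ
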