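import Pool.Agent.Lib.UCZ.Det

/-!
# Unary composites: the phases which build the stack
-/

set_option autoImplicit false

namespace Pool.Agent.Lib.UCZ

open Pool.Agent.Lib.UCX

variable {M : ℕ} [NeZero M]

/-- `j` pushes of `h` -/
def pu : ℕ → ZMod M → List (Prd (GM M))
  | 0, _ => []
  | j + 1, b => Prd.push (G := GM M) (Vr.U b) (Vr.U (b + 1)) Ix.h :: pu j (b + 1)

/-- `i` pushes of `f` -/
def pt : ℕ → ZMod M → List (Prd (GM M))
  | 0, _ => []
  | i + 1, t => Prd.push (G := GM M) (Vr.T t) (Vr.T (t + 1)) Ix.f :: pt i (t + 1)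

theorem run_U_step {b : ZMod M} {σ : List Ix} {l : List (Prd (GM M))} {n : ℕ} :
    Run (GM M) l [some (Vr.U b, σ)] n ↔
      (∃ l', l = Prd.push (G := GM M) (Vr.U b) (Vr.U (b + 1)) Ix.h :: l' ∧ Run (GM M) l' [some (Vr.U (b + 1), Ix.h :: σ)] n) ∨
      (IsUnit b ∧ ∃ l', l = Prd.ctx (G := GM M) (Vr.U b) [Sym.var Vr.Q] :: l' ∧ Run (GM M) l' [some (Vr.Q, σ)] n) := by
  constructor
  · intro h
    cases h with
    | @ctx l _ _ _ α _ hm h =>
      right
      change Cx M (Vr.U b) α at hm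
      cases hm with
      | uq _ hb => exact ⟨hb, l, rfl, h⟩
    | @push l _ _ _ B f _ hm h =>
      left
      change Px M (Vr.U b) B f at hm
      cases hm
      exact ⟨l, rfl, h⟩
    | @pop _ _ _ _ f α _ hm h =>
      change Ox M (Vr.U b) f α at hm
      cases hm
  · rintro (⟨l', rfl, h⟩ | ⟨hb, l', rfl, h⟩)
    · exact Run.push (G := GM M) (Px.uu b) h
    · exact Run.ctx (G := GM M) (Cx.uq b hb) h

theorem run_T_step {b : ZMod M} {σ : List Ix} {l : List (Prd (GM M))} {n : ℕ} :
    Run (GM M) l [some (Vr.T b, σ)] n ↔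
      (∃ l', l = Prd.push (G := GM M) (Vr.T b) (Vr.T (b + 1)) Ix.f :: l' ∧ Run (GM M) l' [some (Vr.T (b + 1), Ix.f :: σ)] n) ∨
      (IsUnit b ∧ ∃ l', l = Prd.ctx (G := GM M) (Vr.T b) [Sym.var (Vr.U b)] :: l' ∧ Run (GM M) l' [some (Vr.U b, σ)] n) := by
  constructor
  · intro h
    cases h with
    | @ctx l _ _ _ α _ hm h =>
      right
      change Cx M (Vr.T b) α at hm
      cases hm with
      | tu _ hb => exact ⟨hb, l, rfl, h⟩
    | @push l _ _ _ B f _ hm h =>
      left
      change Px M (Vr.T b) B f at hm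
      cases hm
      exact ⟨l, rfl, h⟩
    | @pop _ _ _ _ f α _ hm h =>
      change Ox M (Vr.T b) f α at hm
      cases hm
  · rintro (⟨l', rfl, h⟩ | ⟨hb, l', rfl, h⟩)
    · exact Run.push (G := GM M) (Px.tt b) h
    · exact Run.ctx (G := GM M) (Cx.tu b hb) h

theorem rep_cons (x : Ix) (j : ℕ) (σ : List Ix) : List.replicate j x ++ x :: σ = List.replicate (j + 1) x ++ σ := by
  rw [List.replicate_succ', List.append_assoc]
  rfl

theorem run_U (l : List (Prd (GM M))) : ∀ (b : ZMod M) (σ : List Ix) (n : ℕ),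
    Run (GM M) l [some (Vr.U b, σ)] n ↔ ∃ (j : ℕ) (l' : List (Prd (GM M))), IsUnit (b + j) ∧
      l = pu j b ++ Prd.ctx (G := GM M) (Vr.U (b + j)) [Sym.var Vr.Q] :: l' ∧
      Run (GM M) l' [some (Vr.Q, List.replicate j Ix.h ++ σ)] n := by
  induction l with
  | nil =>
    intro b σ n
    rw [run_U_step]
    constructor
    · rintro (⟨l', h, _⟩ | ⟨_, l', h, _⟩) <;> cases h
    · rintro ⟨j, l', _, h, _⟩
      simp at h
  | cons a l ih =>
    intro b σ n
    rw [run_U_step]
    constructor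
    · rintro (⟨l', h, h1⟩ | ⟨hb, l', h, h1⟩)
      · obtain ⟨rfl, rfl⟩ := List.cons.inj h
        obtain ⟨j, l'', hj, rfl, h2⟩ := (ih _ _ _).1 h1
        have e : b + ((j + 1 : ℕ) : ZMod M) = b + 1 + (j : ZMod M) := by
          push_cast
          ring
        refine ⟨j + 1, l'', ?_, ?_, ?_⟩
        · rw [e]
          exact hj
        · rw [e]
          rfl
        · rw [← rep_cons]
          exact h2
      · refine ⟨0, l', ?_, ?_, h1⟩
        · rw [Nat.cast_zero, add_zero]
          exact hb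
        · rw [Nat.cast_zero, add_zero]
          exact h
    · rintro ⟨j, l', hj, h, h1⟩
      cases j with
      | zero =>
        rw [Nat.cast_zero, add_zero] at hj h
        exact Or.inr ⟨hj, l', h, h1⟩
      | succ j =>
        left
        obtain ⟨rfl, rfl⟩ := List.cons.inj h
        have e : b + ((j + 1 : ℕ) : ZMod M) = b + 1 + (j : ZMod M) := by
          push_cast
          ring
        refine ⟨_, rfl, (ih _ _ _).2 ⟨j, l', ?_, ?_, ?_⟩⟩
        · rw [← e]
          exact hj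
        · rw [e]
          rfl
        · rw [← rep_cons] at h1
          exact h1

theorem run_T (l : List (Prd (GM M))) : ∀ (b : ZMod M) (σ : List Ix) (n : ℕ),
    Run (GM M) l [some (Vr.T b, σ)] n ↔ ∃ (j : ℕ) (l' : List (Prd (GM M))), IsUnit (b + j) ∧
      l = pt j b ++ Prd.ctx (G := GM M) (Vr.T (b + j)) [Sym.var (Vr.U (b + j))] :: l' ∧
      Run (GM M) l' [some (Vr.U (b + j), List.replicate j Ix.f ++ σ)] n := by
  induction l with
  | nil =>
    intro b σ n
    rw [run_T_step]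
    constructor
    · rintro (⟨l', h, _⟩ | ⟨_, l', h, _⟩) <;> cases h
    · rintro ⟨j, l', _, h, _⟩
      simp at h
  | cons a l ih =>
    intro b σ n
    rw [run_T_step]
    constructor
    · rintro (⟨l', h, h1⟩ | ⟨hb, l', h, h1⟩)
      · obtain ⟨rfl, rfl⟩ := List.cons.inj h
        obtain ⟨j, l'', hj, rfl, h2⟩ := (ih _ _ _).1 h1
        have e : b + ((j + 1 : ℕ) : ZMod M) = b + 1 + (j : ZMod M) := by
          push_cast
          ring
        refine ⟨j + 1, l'', ?_, ?_, ?_⟩
        · rw [e]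
          exact hj
        · rw [e]
          rfl
        · rw [← rep_cons, e]
          exact h2
      · refine ⟨0, l', ?_, ?_, ?_⟩
        · rw [Nat.cast_zero, add_zero]
          exact hb
        · rw [Nat.cast_zero, add_zero]
          exact h
        · rw [Nat.cast_zero, add_zero]
          exact h1
    · rintro ⟨j, l', hj, h, h1⟩
      cases j with
      | zero =>
        rw [Nat.cast_zero, add_zero] at hj h h1
        exact Or.inr ⟨hj, l', h, h1⟩
      | succ j =>
        left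
        obtain ⟨rfl, rfl⟩ := List.cons.inj h
        have e : b + ((j + 1 : ℕ) : ZMod M) = b + 1 + (j : ZMod M) := by
          push_cast
          ring
        refine ⟨_, rfl, (ih _ _ _).2 ⟨j, l', ?_, ?_, ?_⟩⟩
        · rw [← e]
          exact hj
        · rw [e]
          rfl
        · rw [← rep_cons, e] at h1
          exact h1

/-- the derivations through `T`: one for each pair `(i, j)` -/
theorem run_pairs : ∃ F : ℕ → ℕ → List (Prd (GM M)), ∀ (l : List (Prd (GM M))) (n : ℕ),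
    Run (GM M) l [some (Vr.T 2, [Ix.e])] n ↔
      ∃ i j : ℕ, (i + 2).Coprime M ∧ (i + 2 + j).Coprime M ∧ l = F i j ∧ n = (i + 2) * (i + 2 + j) := by
  choose L hL using fun (j i : ℕ) => run_Q (M := M) j i
  refine ⟨fun i j => pt i 2 ++ Prd.ctx (G := GM M) (Vr.T (2 + (i : ZMod M))) [Sym.var (Vr.U (2 + (i : ZMod M)))] ::
    (pu j (2 + (i : ZMod M)) ++ Prd.ctx (G := GM M) (Vr.U (2 + (i : ZMod M) + (j : ZMod M))) [Sym.var Vr.Q] :: L j i),
    fun l n => ?_⟩
  rw [run_T]
  constructor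
  · rintro ⟨i, l', hi, rfl, h⟩
    obtain ⟨j, l'', hj, rfl, h1⟩ := (run_U _ _ _ _).1 h
    obtain ⟨rfl, rfl⟩ := (hL j i _ _).1 h1
    refine ⟨i, j, ?_, ?_, rfl, rfl⟩
    · rw [← ZMod.isUnit_iff_coprime]
      push_cast
      rw [add_comm]
      exact hi
    · rw [← ZMod.isUnit_iff_coprime]
      push_cast
      rw [add_comm (i : ZMod M) 2]
      exact hj
  · rintro ⟨i, j, hi, hj, rfl, rfl⟩
    rw [← ZMod.isUnit_iff_coprime] at hi hj
    push_cast at hi hj
    rw [add_comm (i : ZMod M) 2] at hi hj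
    exact ⟨i, _, hi, rfl, (run_U _ _ _ _).2 ⟨j, _, hj, rfl, (hL j i _ _).2 ⟨rfl, rfl⟩⟩⟩

end Pool.Agent.Lib.UCZ
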