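import Pool.Agent.Lib.UCZ.Phase

/-!
# Unary composites: the language of the grammars and the number of derivations
-/

set_option autoImplicit false

namespace Pool.Agent.Lib.UCZ

open Pool.Agent.Lib.UCX

variable {M : ℕ} [NeZero M]

theorem run_rep {G : Grammar} (k : ℕ) {l : List (Prd G)} {w : List (Item G)} {n : ℕ} :
    Run G l (List.replicate k none ++ w) n ↔ ∃ m, n = k + m ∧ Run G l w m := by
  induction k generalizing n with
  | zero =>
    constructor
    · intro h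
      exact ⟨n, by omega, h⟩
    · rintro ⟨m, rfl, h⟩
      rw [Nat.zero_add]
      exact h
  | succ k ih =>
    rw [List.replicate_succ, List.cons_append, run_none]
    constructor
    · rintro ⟨m, rfl, h⟩
      obtain ⟨m', rfl, h'⟩ := ih.1 h
      exact ⟨m', by omega, h'⟩
    · rintro ⟨m, rfl, h⟩
      exact ⟨k + m, by omega, ih.2 ⟨m, rfl, h⟩⟩

theorem inst_rep {G : Grammar} (σ : List G.I) (k : ℕ) (α : List (Sym G.V)) :
    inst σ (List.replicate k Sym.zero ++ α) = List.replicate k none ++ inst σ α := by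
  unfold inst
  rw [List.map_append, List.map_replicate]

theorem run_rep_inst {G : Grammar} (σ : List G.I) (k : ℕ) (α : List (Sym G.V)) {l : List (Prd G)} {w : List (Item G)}
    {n : ℕ} : Run G l (inst σ (List.replicate k Sym.zero ++ α) ++ w) n ↔ ∃ m, n = k + m ∧ Run G l (inst σ α ++ w) m := by
  rw [inst_rep, List.append_assoc]
  exact run_rep k

/-- a terminal right-hand side -/
theorem run_term {G : Grammar} (σ : List G.I) (k : ℕ) {l : List (Prd G)} {n : ℕ} :
    Run G l (inst σ (List.replicate k Sym.zero) ++ []) n ↔ l = [] ∧ n = k := by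
  have h := inst_rep (G := G) σ k []
  rw [List.append_nil] at h
  rw [h]
  change Run G l (List.replicate k none ++ [] ++ []) n ↔ _
  rw [List.append_nil, run_rep]
  constructor
  · rintro ⟨m, rfl, h⟩
    obtain ⟨rfl, rfl⟩ := run_nil.1 h
    exact ⟨rfl, rfl⟩
  · rintro ⟨rfl, rfl⟩
    exact ⟨0, rfl, Run.nil⟩

theorem run_R_step {σ : List Ix} {l : List (Prd (GM M))} {n : ℕ} :
    Run (GM M) l [some (Vr.R, σ)] n ↔
      (∃ l' m, l = Prd.ctx (G := GM M) Vr.R (List.replicate M Sym.zero ++ [Sym.var Vr.R]) :: l' ∧ n = M + m ∧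
        Run (GM M) l' [some (Vr.R, σ)] m) ∨
      (∃ k, M < k ∧ k ≤ 2 * M ∧ 1 < Nat.gcd k M ∧ l = [Prd.ctx (G := GM M) Vr.R (List.replicate k Sym.zero)] ∧ n = k) := by
  constructor
  · intro h
    cases h with
    | @ctx l _ _ _ α _ hm h =>
      change Cx M Vr.R α at hm
      cases hm with
      | rr =>
        left
        obtain ⟨m, rfl, h'⟩ := (run_rep_inst (G := GM M) σ M [Sym.var Vr.R]).1 h
        exact ⟨l, m, rfl, rfl, h'⟩
      | rk k h1 h2 h3 =>
        right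
        obtain ⟨rfl, rfl⟩ := (run_term _ _).1 h
        exact ⟨_, h1, h2, h3, rfl, rfl⟩
    | @push l _ _ _ B f _ hm h =>
      change Px M Vr.R B f at hm
      cases hm
    | @pop _ _ _ _ f α _ hm h =>
      change Ox M Vr.R f α at hm
      cases hm
  · rintro (⟨l', m, rfl, rfl, h⟩ | ⟨k, h1, h2, h3, rfl, rfl⟩)
    · exact Run.ctx (G := GM M) Cx.rr ((run_rep_inst (G := GM M) σ M [Sym.var Vr.R]).2 ⟨m, rfl, h⟩)
    · exact Run.ctx (G := GM M) (Cx.rk _ h1 h2 h3) ((run_term _ _).2 ⟨rfl, rfl⟩)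

theorem run_R (l : List (Prd (GM M))) : ∀ (σ : List Ix) (n : ℕ), Run (GM M) l [some (Vr.R, σ)] n ↔
    ∃ t k : ℕ, M < k ∧ k ≤ 2 * M ∧ 1 < Nat.gcd k M ∧ n = M * t + k ∧
      l = List.replicate t (Prd.ctx (G := GM M) Vr.R (List.replicate M Sym.zero ++ [Sym.var Vr.R])) ++
        [Prd.ctx (G := GM M) Vr.R (List.replicate k Sym.zero)] := by
  induction l with
  | nil =>
    intro σ n
    rw [run_R_step]
    constructor
    · rintro (⟨l', _, h, _⟩ | ⟨_, _, _, _, h, _⟩) <;> cases h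
    · rintro ⟨j, k, _, _, _, _, h⟩
      simp at h
  | cons a l ih =>
    intro σ n
    rw [run_R_step]
    constructor
    · rintro (⟨l', m, h, rfl, h1⟩ | ⟨k, h1, h2, h3, h, rfl⟩)
      · obtain ⟨rfl, rfl⟩ := List.cons.inj h
        obtain ⟨t, k, hk, hk2, hk3, rfl, rfl⟩ := (ih _ _).1 h1
        exact ⟨t + 1, k, hk, hk2, hk3, by ring, rfl⟩
      · exact ⟨0, _, h1, h2, h3, by omega, h⟩
    · rintro ⟨t, k, h1, h2, h3, rfl, h⟩
      cases t with
      | zero => exact Or.inr ⟨k, h1, h2, h3, h, by omega⟩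
      | succ t =>
        obtain ⟨rfl, rfl⟩ := List.cons.inj h
        exact Or.inl ⟨_, M * t + k, rfl, by ring, (ih _ _).2 ⟨t, k, h1, h2, h3, rfl, rfl⟩⟩

theorem run_S {l : List (Prd (GM M))} {n : ℕ} :
    Run (GM M) l [some ((GM M).start, [])] n ↔
      (n ≤ M ∧ Composite n ∧ 1 < Nat.gcd n M ∧ l = [Prd.ctx (G := GM M) Vr.S (List.replicate n Sym.zero)]) ∨
      (∃ l', l = Prd.ctx (G := GM M) Vr.S [Sym.var Vr.R] :: l' ∧ Run (GM M) l' [some (Vr.R, [])] n) ∨
      (∃ l', l = Prd.push (G := GM M) Vr.S (Vr.T 2) Ix.e :: l' ∧ Run (GM M) l' [some (Vr.T 2, [Ix.e])] n) := by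
  constructor
  · intro h
    change Run (GM M) l [some (Vr.S, [])] n at h
    cases h with
    | @ctx l _ _ _ α _ hm h =>
      change Cx M Vr.S α at hm
      cases hm with
      | small k h1 h2 h3 =>
        left
        obtain ⟨rfl, rfl⟩ := (run_term _ _).1 h
        exact ⟨h1, h2, h3, rfl⟩
      | sr => exact Or.inr (Or.inl ⟨l, rfl, h⟩)
    | @push l _ _ _ B f _ hm h =>
      change Px M Vr.S B f at hm
      cases hm
      exact Or.inr (Or.inr ⟨l, rfl, h⟩)
  · rintro (⟨h1, h2, h3, rfl⟩ | ⟨l', rfl, h⟩ | ⟨l', rfl, h⟩)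
    · exact Run.ctx (G := GM M) (Cx.small _ h1 h2 h3) ((run_term _ _).2 ⟨rfl, rfl⟩)
    · exact Run.ctx (G := GM M) Cx.sr h
    · exact Run.push (G := GM M) Px.st h

/-- `n` has at most one divisor `d` with `1 < d` and `d² ≤ n`. -/
def Few (n : ℕ) : Prop := ∀ d e, 1 < d → d * d ≤ n → d ∣ n → 1 < e → e * e ≤ n → e ∣ n → d = e

theorem gcd_class (t k : ℕ) : Nat.gcd (M * t + k) M = Nat.gcd k M := by
  rw [add_comm, Nat.gcd_add_mul_left_left]

theorem not_prime_of_gcd {n : ℕ} (h : 1 < Nat.gcd n M) (hn : M < n) : ¬ n.Prime := by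
  intro hp
  have h1 : Nat.gcd n M ∣ n := Nat.gcd_dvd_left n M
  have h2 : Nat.gcd n M ≤ M := Nat.gcd_le_right n (Nat.pos_of_ne_zero (NeZero.ne M))
  rcases (Nat.dvd_prime hp).1 h1 with h3 | h3 <;> omega

theorem lang_GM : Lang (GM M) = {n | Composite n} := by
  obtain ⟨F, hF⟩ := run_pairs (M := M)
  ext n
  constructor
  · rintro ⟨l, h⟩
    rcases run_S.1 h with ⟨_, h2, _, _⟩ | ⟨l', rfl, h1⟩ | ⟨l', rfl, h1⟩
    · exact h2
    · obtain ⟨t, k, hk1, hk2, hk3, rfl, _⟩ := (run_R _ _ _).1 h1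
      have h2 : 1 < Nat.gcd (M * t + k) M := by
        rw [gcd_class]
        exact hk3
      have h3 : 0 < M := Nat.pos_of_ne_zero (NeZero.ne M)
      exact ⟨by omega, not_prime_of_gcd h2 (by omega)⟩
    · obtain ⟨i, j, _, _, _, rfl⟩ := (hF _ _).1 h1
      exact ⟨by nlinarith, Nat.not_prime_mul (by omega) (by omega)⟩
  · rintro ⟨h1, h2⟩
    by_cases hg : 1 < Nat.gcd n M
    · by_cases hn : n ≤ M
      · exact ⟨_, run_S.2 (Or.inl ⟨hn, ⟨h1, h2⟩, hg, rfl⟩)⟩
      · have h3 : 0 < M := Nat.pos_of_ne_zero (NeZero.ne M)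
        obtain ⟨t, k, hk1, hk2, e⟩ : ∃ t k, M < k ∧ k ≤ 2 * M ∧ n = M * t + k := by
          refine ⟨(n - M - 1) / M, (n - M - 1) % M + M + 1, by omega, ?_, ?_⟩
          · have := Nat.mod_lt (n - M - 1) h3
            omega
          · have := Nat.div_add_mod (n - M - 1) M
            omega
        subst e
        rw [gcd_class] at hg
        exact ⟨_, run_S.2 (Or.inr (Or.inl ⟨_, rfl, (run_R _ _ _).2 ⟨t, k, hk1, hk2, hg, rfl, rfl⟩⟩))⟩
    · have hc : n.Coprime M := by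
        have := Nat.gcd_pos_of_pos_left M (show 0 < n by omega)
        show Nat.gcd n M = 1
        omega
      obtain ⟨a, b, ha, hb, e⟩ : ∃ a b, 2 ≤ a ∧ a ≤ b ∧ n = a * b := by
        obtain ⟨a, ha, h3, h4⟩ := (Nat.not_prime_iff_exists_dvd_lt h1).1 h2
        obtain ⟨b, rfl⟩ := ha
        have hb : 2 ≤ b := by
          rcases Nat.lt_or_ge b 2 with h | h
          · interval_cases b <;> omega
          · exact h
        rcases Nat.le_total a b with h | h
        · exact ⟨a, b, h3, h, rfl⟩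
        · exact ⟨b, a, hb, h, Nat.mul_comm _ _⟩
      subst e
      obtain ⟨i, rfl⟩ := Nat.exists_eq_add_of_le' ha
      obtain ⟨j, rfl⟩ := Nat.exists_eq_add_of_le hb
      refine ⟨_, run_S.2 (Or.inr (Or.inr ⟨_, rfl, (hF _ _).2 ⟨i, j, Nat.Coprime.coprime_mul_right hc,
        Nat.Coprime.coprime_mul_left hc, rfl, rfl⟩⟩))⟩

theorem one_GM {n : ℕ} (hn : 1 < Nat.gcd n M ∨ Few n) {l l' : List (Prd (GM M))}
    (h : Run (GM M) l [some ((GM M).start, [])] n) (h' : Run (GM M) l' [some ((GM M).start, [])] n) : l = l' := by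
  obtain ⟨F, hF⟩ := run_pairs (M := M)
  have h0 : 0 < M := Nat.pos_of_ne_zero (NeZero.ne M)
  have hcop : ∀ i j : ℕ, (i + 2).Coprime M → (i + 2 + j).Coprime M → n = (i + 2) * (i + 2 + j) → ¬ 1 < Nat.gcd n M := by
    intro i j hi hj e
    have : n.Coprime M := by
      rw [e]
      exact Nat.Coprime.mul_left hi hj
    have h1 : Nat.gcd n M = 1 := this
    omega
  rcases run_S.1 h with ⟨a1, _, a3, rfl⟩ | ⟨l1, rfl, h1⟩ | ⟨l1, rfl, h1⟩
  · rcases run_S.1 h' with ⟨b1, _, b3, rfl⟩ | ⟨l2, rfl, h2⟩ | ⟨l2, rfl, h2⟩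
    · rfl
    · obtain ⟨t, k, hk1, _, _, rfl, _⟩ := (run_R _ _ _).1 h2
      omega
    · obtain ⟨i, j, hi, hj, _, e⟩ := (hF _ _).1 h2
      exact absurd a3 (hcop i j hi hj e)
  · obtain ⟨t, k, hk1, hk2, hk3, e, rfl⟩ := (run_R _ _ _).1 h1
    have hg : 1 < Nat.gcd n M := by
      rw [e, gcd_class]
      exact hk3
    rcases run_S.1 h' with ⟨b1, _, b3, rfl⟩ | ⟨l2, rfl, h2⟩ | ⟨l2, rfl, h2⟩
    · have : 0 ≤ M * t := Nat.zero_le _
      omega
    · obtain ⟨t', k', hk1', hk2', hk3', e', rfl⟩ := (run_R _ _ _).1 h2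
      have ht : t = t' := by
        rcases Nat.lt_trichotomy t t' with h3 | h3 | h3
        · have : M * (t + 1) ≤ M * t' := Nat.mul_le_mul_left M h3
          rw [Nat.mul_add] at this
          omega
        · exact h3
        · have : M * (t' + 1) ≤ M * t := Nat.mul_le_mul_left M h3
          rw [Nat.mul_add] at this
          omega
      subst ht
      have hk : k = k' := by omega
      subst hk
      rfl
    · obtain ⟨i, j, hi, hj, _, e⟩ := (hF _ _).1 h2
      exact absurd hg (hcop i j hi hj e)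
  · obtain ⟨i, j, hi, hj, rfl, e⟩ := (hF _ _).1 h1
    have hg := hcop i j hi hj e
    rcases run_S.1 h' with ⟨b1, _, b3, rfl⟩ | ⟨l2, rfl, h2⟩ | ⟨l2, rfl, h2⟩
    · exact absurd b3 hg
    · obtain ⟨t', k', hk1', hk2', hk3', e', rfl⟩ := (run_R _ _ _).1 h2
      refine absurd ?_ hg
      rw [e', gcd_class]
      exact hk3'
    · obtain ⟨i', j', hi', hj', rfl, e'⟩ := (hF _ _).1 h2
      have hf : Few n := hn.resolve_left hg
      have h3 : i + 2 = i' + 2 := by
        refine hf (i + 2) (i' + 2) (by omega) ?_ ⟨_, e⟩ (by omega) ?_ ⟨_, e'⟩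
        · rw [e]
          exact Nat.mul_le_mul_left _ (by omega)
        · rw [e']
          exact Nat.mul_le_mul_left _ (by omega)
      have h4 : i = i' := by omega
      subst h4
      have h5 : i + 2 + j = i + 2 + j' := Nat.eq_of_mul_eq_mul_left (by omega) (e.symm.trans e')
      have h6 : j = j' := by omega
      subst h6
      rfl

end Pool.Agent.Lib.UCZ
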